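import Pool.Agent.MTA.Fto
import Pool.Agent.MTR.Meas

/-!
# Families of Montesinos knots: the limit theorem and the residue argument

`m`, `e`, `ws` are the coefficients and the data of a finite family of Montesinos knots in normal
form whose determinants have the same absolute value. If the weighted sum of the logarithmic
derivatives at the roots of unity of order a power of two is constant then the weighted sum of the
measures is invariant under the inversion of the triples.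
-/

set_option autoImplicit false

open Filter Topology
open scoped BigOperators Real

namespace Pool.Agent.UAD

open Pool.Agent.TB Pool.Agent.MTR Pool.Agent.MTA

section Phi

variable {ι : Type} [Fintype ι]

theorem main_eq (hf : FOUT_Stmt) {s : ℕ} (hs : 2 ≤ s) {M : ℤ} (hM : Odd M) (m e : ι → ℤ)
    (ws : ι → List (List ℤ)) (c : ι → ℤ) {C : ℂ}
    (hC : ∀ κ : ZMod (2 ^ s), IsUnit κ →
      ∑ i, (m i : ℂ) * LG (2 ^ s) (e i) (ws i) (κ * (c i : ZMod (2 ^ s))) = C) :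
    ∑ i, (m i : ℂ) *
      TG (2 ^ s) (e i) (ws i) (fun v => chi s M ((c i : ZMod (2 ^ s)) * v)) = 0 := by
  have h0 := (hf s hs M hM).2
  have hne : (2 ^ s / 2 : ℂ) ≠ 0 := by
    simp
  refine (mul_eq_zero.1 ?_).resolve_left hne
  set K : ℂ := C - ∑ i, (m i : ℂ) * (-(((2 ^ s : ℕ) : ℂ) ^ 2 - 1) / 6 *
      ((e i : ℂ) / 2 + ((ws i).map fun x => ((x.sum : ℤ) : ℂ)).sum)) with hK
  have h3 : ∀ τ ∈ Finset.univ.filter (fun τ : ZMod (2 ^ s) => IsUnit τ),
      ∑ i, (m i : ℂ) * ((ZMod.stdAddChar (-(τ * (M : ZMod (2 ^ s)))) : ℂ) *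
          TG (2 ^ s) (e i) (ws i) (fun v => ZMod.stdAddChar (τ * (c i : ZMod (2 ^ s)) * v))) =
      (ZMod.stdAddChar (-(τ * (M : ZMod (2 ^ s)))) : ℂ) * K := by
    intro τ hτ
    rw [Finset.mem_filter] at hτ
    have h4 := hC τ hτ.2
    rw [hK, ← h4, ← Finset.sum_sub_distrib, Finset.mul_sum]
    refine Finset.sum_congr rfl fun i _ => ?_
    unfold LG
    ring
  have h5 : (2 ^ s / 2 : ℂ) * ∑ i, (m i : ℂ) *
      TG (2 ^ s) (e i) (ws i) (fun v => chi s M ((c i : ZMod (2 ^ s)) * v)) =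
      ∑ i, (m i : ℂ) * ∑ τ ∈ Finset.univ.filter (fun τ : ZMod (2 ^ s) => IsUnit τ),
        (ZMod.stdAddChar (-(τ * (M : ZMod (2 ^ s)))) : ℂ) *
          TG (2 ^ s) (e i) (ws i) (fun v => ZMod.stdAddChar (τ * (c i : ZMod (2 ^ s)) * v)) := by
    rw [Finset.mul_sum]
    refine Finset.sum_congr rfl fun i _ => ?_
    rw [FTO.transform hf hs hM (c i) (FTO.lin_TG (e i) (ws i))]
    ring
  rw [h5]
  simp only [Finset.mul_sum]
  rw [Finset.sum_comm, Finset.sum_congr rfl h3, ← Finset.sum_mul, h0, zero_mul]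

/-- The limit theorem for a family. -/
theorem phi_sum (hf : FOUT_Stmt) (hl : LIMT_Stmt) (m e : ι → ℤ) (ws : ι → List (List ℤ))
    (c : ι → ℤ) (hN : ∀ i, NF (e i) (ws i)) (hc : ∀ i, Odd (c i))
    (hE : ∃ s0 : ℕ, ∀ s : ℕ, s0 ≤ s → ∃ C : ℂ, ∀ κ : ZMod (2 ^ s), IsUnit κ →
      ∑ i, (m i : ℂ) * LG (2 ^ s) (e i) (ws i) (κ * (c i : ZMod (2 ^ s))) = C) :
    ∃ L : ℕ, ∀ M : ℤ, Odd M → (∃ q : ℕ, q.Prime ∧ L < q ∧ (q : ℤ) ∣ M ∧ ¬ (q : ℤ) ^ 2 ∣ M) →
      ∑ i, (m i : ℚ) * Phi (e i) (ws i) (c i) M = 0 := by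
  obtain ⟨s0, hE⟩ := hE
  choose L hL using fun i => hl (e i) (ws i) (hN i) (c i) (hc i)
  refine ⟨∑ i, L i, ?_⟩
  rintro M hM ⟨q, hq, hqL, hqM, hqM2⟩
  have t1 : ∀ i, Tendsto (fun s : ℕ => 4 * ((π : ℂ) / 2 ^ s) ^ 2 *
      TG (2 ^ s) (e i) (ws i) (fun v => chi s M ((c i : ZMod (2 ^ s)) * v))) atTop
      (𝓝 ((Phi (e i) (ws i) (c i) M : ℚ) : ℂ)) := fun i => by
    refine hL i M hM ⟨q, hq, lt_of_le_of_lt ?_ hqL, hqM, hqM2⟩
    exact Finset.single_le_sum (f := L) (fun j _ => Nat.zero_le _) (Finset.mem_univ i)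
  have t2 : Tendsto (fun s : ℕ => ∑ i, (m i : ℂ) * (4 * ((π : ℂ) / 2 ^ s) ^ 2 *
      TG (2 ^ s) (e i) (ws i) (fun v => chi s M ((c i : ZMod (2 ^ s)) * v)))) atTop
      (𝓝 (∑ i, (m i : ℂ) * ((Phi (e i) (ws i) (c i) M : ℚ) : ℂ))) :=
    tendsto_finsetSum _ fun i _ => (t1 i).const_mul _
  have t3 : Tendsto (fun _ : ℕ => (0 : ℂ)) atTop
      (𝓝 (∑ i, (m i : ℂ) * ((Phi (e i) (ws i) (c i) M : ℚ) : ℂ))) := by
    refine t2.congr' ?_
    filter_upwards [Filter.eventually_ge_atTop (max s0 2)] with s hs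
    obtain ⟨C, hC⟩ := hE s ((le_max_left _ _).trans hs)
    have h1 := main_eq hf ((le_max_right _ _).trans hs) hM m e ws c hC
    have h2 : ∑ i, (m i : ℂ) * (4 * ((π : ℂ) / 2 ^ s) ^ 2 *
        TG (2 ^ s) (e i) (ws i) (fun v => chi s M ((c i : ZMod (2 ^ s)) * v))) =
        4 * ((π : ℂ) / 2 ^ s) ^ 2 * ∑ i, (m i : ℂ) *
          TG (2 ^ s) (e i) (ws i) (fun v => chi s M ((c i : ZMod (2 ^ s)) * v)) := by
      rw [Finset.mul_sum]
      exact Finset.sum_congr rfl fun i _ => by ring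
    rw [h2, h1, mul_zero]
  have t4 := tendsto_nhds_unique t3 tendsto_const_nhds
  exact_mod_cast t4

end Phi

/-- facts about the sites (as in the module MEAS) -/
theorem site (had : ADV_Stmt) (hs : SITE_Stmt) (hz : SITZ_Stmt) (e : ℤ) (ws : List (List ℤ))
    (hN : NF e ws) :
    (∀ y : Tri, (y = tr0 e ws ∨ y ∈ trs e ws) → y.ok ∧ (y.1 : ℤ) ∣ DD e ws) ∧
    ∀ c M : ℤ, c ≠ 0 → Phi e ws c M =
      (MEAS.F (tr0 e ws) (trs e ws)).sum
        (fun x a => MEAS.hT ((M : ℚ) / (c * DD e ws)) x a) := by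
  obtain ⟨hodd, hP, hw⟩ := had.2.2.2.2 e ws hN
  have hdet0 : det2 (lv e ws) (0, 1) = DD e ws := (had.2.1 e [] ws).2.2
  have hl0 : (lv e ws).2 ≠ 0 := hP
  have hc0 : IsCoprime ((0 : ℤ), (1 : ℤ)).1 ((0 : ℤ), (1 : ℤ)).2 := isCoprime_one_right
  have hdiv : ∀ l V : ℤ × ℤ, IsCoprime V.1 V.2 → Odd (det2 l V) → l.2 ≠ 0 → V.2 ≠ 0 →
      ((tri l V).1 : ℤ) ∣ det2 l V := by
    intro l V h1 h2 h3 h4
    have h5 := (hs l V h1 h2 h3 h4).2.2.1
    rw [← Int.dvd_natAbs]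
    rw [← h5]
    push_cast
    exact dvd_mul_right _ _
  refine ⟨?_, ?_⟩
  · rintro y (rfl | hy)
    · refine ⟨(hs (lv e ws) (0, 1) hc0 (hdet0 ▸ hodd) hl0 one_ne_zero).1, ?_⟩
      have := hdiv (lv e ws) (0, 1) hc0 (hdet0 ▸ hodd) hl0 one_ne_zero
      rw [hdet0] at this
      exact this
    · obtain ⟨x, hx, rfl⟩ := List.mem_map.1 hy
      obtain ⟨-, h1, h2, h3, h4⟩ := hw x hx
      refine ⟨(hs _ _ h4 (h1 ▸ hodd) h2 h3).1, ?_⟩
      have := hdiv _ _ h4 (h1 ▸ hodd) h2 h3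
      rw [h1] at this
      exact this
  · intro c M hc
    rw [MEAS.F_sum]
    unfold Phi
    have e1 : (ws.map fun x => zsum c (lv e (ws.erase x)) (lastv x) M) =
        ((trs e ws).map fun x => MEAS.hT ((M : ℚ) / (c * DD e ws)) x 1) := by
      unfold trs
      rw [List.map_map]
      refine List.map_congr_left fun x hx => ?_
      obtain ⟨-, h1, h2, h3, h4⟩ := hw x hx
      rw [hz _ _ h4 (h1 ▸ hodd) h2 h3 c M hc, h1]
      simp [MEAS.hT_apply]
    rw [e1, hz _ _ hc0 (hdet0 ▸ hodd) hl0 one_ne_zero c M hc, hdet0, MEAS.hT_apply]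
    have e2 : (trs e ws).length = ws.length := by
      unfold trs
      rw [List.length_map]
    rw [e2]
    push_cast
    rfl

section Meas

variable {ι : Type} [Fintype ι]

/-- The measures of a family. -/
theorem meas_sum (had : ADV_Stmt) (hs : SITE_Stmt) (hz : SITZ_Stmt) (hr : REC_Stmt)
    (m e : ι → ℤ) (ws : ι → List (List ℤ)) (c : ι → ℤ) (D : ℤ) (hDo : Odd D)
    (hN : ∀ i, NF (e i) (ws i)) (hD : ∀ i, c i * DD (e i) (ws i) = D)
    (hPhi : ∃ L : ℕ, ∀ M : ℤ, Odd M →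
      (∃ q : ℕ, q.Prime ∧ L < q ∧ (q : ℤ) ∣ M ∧ ¬ (q : ℤ) ^ 2 ∣ M) →
      ∑ i, (m i : ℚ) * Phi (e i) (ws i) (c i) M = 0) :
    (∀ x : Tri, x.ok → ∑ i, m i * mz (tr0 (e i) (ws i)) (trs (e i) (ws i)) x =
      ∑ i, m i * mz (tr0 (e i) (ws i)) (trs (e i) (ws i)) x.inv) ∧
    ∀ p : ℕ × ℤ, ∑ i, m i * mc (tr0 (e i) (ws i)) (trs (e i) (ws i)) p = 0 := by
  classical
  have hD0 : D ≠ 0 := by
    rintro rfl
    exact absurd hDo (by decide)
  have hc0 : ∀ i, c i ≠ 0 := by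
    intro i h
    apply hD0
    rw [← hD i, h, zero_mul]
  set F : Tri →₀ ℤ := ∑ i, m i • MEAS.F (tr0 (e i) (ws i)) (trs (e i) (ws i)) with hF
  have hFx : ∀ x, F x = ∑ i, m i * mz (tr0 (e i) (ws i)) (trs (e i) (ws i)) x := by
    intro x
    rw [hF, Finsupp.finsetSum_apply]
    refine Finset.sum_congr rfl fun i _ => ?_
    rw [Finsupp.smul_apply, MEAS.F_apply, smul_eq_mul]
  have hFsum : ∀ {A : Type} [AddCommGroup A] (h : Tri → ℤ →+ A),
      F.sum (fun x a => h x a) = ∑ i, m i •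
        (MEAS.F (tr0 (e i) (ws i)) (trs (e i) (ws i))).sum (fun x a => h x a) := by
    intro A _ h
    rw [hF, ← Finsupp.sum_finsetSum_index (fun x => map_zero (h x))
      (fun x a b => map_add (h x) a b)]
    refine Finset.sum_congr rfl fun i _ => ?_
    rw [Finsupp.sum_smul_index' (fun x => map_zero (h x)), Finsupp.smul_sum]
    refine Finset.sum_congr rfl fun x _ => ?_
    exact map_zsmul (h x) _ _
  have hmz : ∀ (y0 : Tri) (Y : List Tri) (x : Tri), mz y0 Y x ≠ 0 → x = y0 ∨ x ∈ Y := by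
    intro y0 Y x h
    by_contra hc
    push Not at hc
    apply h
    unfold mz
    rw [if_neg hc.1, List.count_eq_zero_of_not_mem hc.2]
    rfl
  have hsupp : ∀ x ∈ F.support, x.ok ∧ (x.1 : ℤ) ∣ D := by
    intro x hx
    rw [Finsupp.mem_support_iff, hFx] at hx
    obtain ⟨i, -, hi⟩ := Finset.exists_ne_zero_of_sum_ne_zero hx
    have h1 := (site had hs hz (e i) (ws i) (hN i)).1 x (hmz _ _ _ (right_ne_zero_of_mul hi))
    refine ⟨h1.1, ?_⟩
    rw [← hD i]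
    exact dvd_mul_of_dvd_right h1.2 _
  obtain ⟨L, hL⟩ := hPhi
  have key : (∀ x : Tri, x.ok → F x = F x.inv) ∧
      ∀ p : ℕ × ℤ, ∑ x ∈ F.support.filter (fun x => (x.1, x.2.1) = p), F x = 0 := by
    refine hr F (fun x hx => (hsupp x hx).1) ?_
    intro y hy
    obtain ⟨hyok, k, hk⟩ := hsupp y hy
    have hkodd : Odd k := by
      rw [hk] at hDo
      exact (Int.odd_mul.1 hDo).2
    have hk0 : k ≠ 0 := by
      rintro h
      rw [h] at hkodd
      exact absurd hkodd (by decide)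
    have hy0 : (y.1 : ℤ) ≠ 0 := by
      rintro h
      rw [h, zero_mul] at hk
      exact hD0 hk
    refine ⟨max L (max 2 k.natAbs), ?_⟩
    intro q hq hqL
    have hq1 : L < q := lt_of_le_of_lt (le_max_left _ _) hqL
    have hq2 : 2 < q := lt_of_le_of_lt ((le_max_left _ _).trans (le_max_right _ _)) hqL
    have hq3 : k.natAbs < q := lt_of_le_of_lt ((le_max_right _ _).trans (le_max_right _ _)) hqL
    have hqodd : Odd (q : ℤ) := by
      have := hq.odd_of_ne_two (by omega)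
      exact_mod_cast this
    have hqk : ¬ (q : ℤ) ∣ k := by
      intro h
      have h1 : q ∣ k.natAbs := Int.natCast_dvd.1 h
      have h2 := Nat.le_of_dvd (Int.natAbs_pos.2 hk0) h1
      omega
    have hM := hL (q * k) (hqodd.mul hkodd) ⟨q, hq, hq1, dvd_mul_right _ _, by
      intro h
      rw [pow_two] at h
      have hq0 : (q : ℤ) ≠ 0 := by
        have := hq.ne_zero
        exact_mod_cast this
      exact hqk (Int.dvd_of_mul_dvd_mul_left hq0 h)⟩
    have ht : ∀ i, (((q : ℤ) * k : ℤ) : ℚ) /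
        (((c i : ℤ) : ℚ) * ((DD (e i) (ws i) : ℤ) : ℚ)) = (q : ℚ) / y.1 := by
      intro i
      have h1 : ((c i : ℤ) : ℚ) * ((DD (e i) (ws i) : ℤ) : ℚ) = (y.1 : ℚ) * (k : ℚ) := by
        have := (hD i).trans hk
        exact_mod_cast this
      have h2 : (y.1 : ℚ) ≠ 0 := by exact_mod_cast hy0
      have h3 : (k : ℚ) ≠ 0 := by exact_mod_cast hk0
      rw [h1]
      push_cast
      field_simp
    have h5 : F.sum (fun x a => MEAS.hT ((q : ℚ) / y.1) x a) = 0 := by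
      rw [hFsum (MEAS.hT ((q : ℚ) / y.1)), ← hM]
      refine Finset.sum_congr rfl fun i _ => ?_
      rw [(site had hs hz (e i) (ws i) (hN i)).2 _ _ (hc0 i), ht i, zsmul_eq_mul]
    rw [← h5]
    rfl
  refine ⟨fun x hx => ?_, fun p => ?_⟩
  · have h1 := key.1 x hx
    rw [hFx, hFx] at h1
    exact h1
  · have h1 := key.2 p
    have h2 : F.sum (fun x a => MEAS.hC p x a) = 0 := by
      rw [← h1, Finset.sum_filter]
      unfold Finsupp.sum
      refine Finset.sum_congr rfl fun x _ => ?_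
      show MEAS.hC p x (F x) = _
      rw [MEAS.hC_apply]
    rw [hFsum (MEAS.hC p)] at h2
    rw [← h2]
    refine Finset.sum_congr rfl fun i _ => ?_
    rw [MEAS.F_mc, smul_eq_mul]

end Meas

end Pool.Agent.UAD
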