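import Pool.Agent.UAD.Fam
import Pool.Agent.MTR.Final
import Pool.Agent.MTR.SiteB
import Pool.Agent.MTA.Tail
import Pool.Agent.MTA.Limq
import Pool.Agent.MTA.Lims
import Pool.Agent.MTA.Cscl
import Pool.Agent.MTA.Limt
import Pool.Agent.MTA.Cls
import Pool.Agent.MTA.Fout
import Pool.Agent.TB.Chn

/-!
# Families of nodes with determinant `1`

If the sum of the logarithmic derivatives of a family of Montesinos knots in normal form with
determinant `±1`, compared with the unknot, is constant then all of them have at most two tangles.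
-/

set_option autoImplicit false

open scoped BigOperators Real

namespace Pool.Agent.UAD

open Pool.Agent.TB Pool.Agent.MTR Pool.Agent.MTA

/-- the unknot is in normal form -/
theorem nf_unknot : NF 1 [] := ⟨by simp, Or.inl ⟨odd_one, by simp⟩⟩

theorem dd_unknot : DD 1 [] = 1 := by
  simp [DD, totv]

/-- the height of the empty site for determinant `±1` -/
theorem ht_tr0 {e : ℤ} {ws : List (List ℤ)} (hn : CHNO_Stmt) (hA : DATA_Stmt) (had : ADV_Stmt)
    (h : NF e ws) (hD : DD e ws = 1 ∨ DD e ws = -1) (hw : ws ≠ []) :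
    2 ≤ (tr0 e ws).ht := by
  have h1 := (hA e ws h _ rfl).2.2.2.2.2.2.1
  rw [h1]
  have h2 : |(DD e ws : ℚ)| = 1 := by
    rcases hD with h2 | h2 <;> rw [h2] <;> simp
  rw [h2, div_one]
  have h3 : (totv e ws).2 = (ws.map fun x => (lastv x).2).prod := had.2.2.1 e ws
  have h4 : ∀ w : List (List ℤ), (∀ x ∈ w, 2 ≤ |(lastv x).2|) →
      1 ≤ |(w.map fun x => (lastv x).2).prod| := by
    intro w
    induction w with
    | nil => intro _; simp
    | cons x w ih =>
      intro h5
      rw [List.map_cons, List.prod_cons, abs_mul]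
      have h6 := h5 x (List.mem_cons_self)
      have h7 := ih fun y hy => h5 y (List.mem_cons_of_mem _ hy)
      nlinarith
  have h5 : ∀ x ∈ ws, 2 ≤ |(lastv x).2| := fun x hx =>
    ((hn x).2.2.2 (h.1 x hx).2).2 (h.1 x hx).1
  have h6 : 2 ≤ |(totv e ws).2| := by
    rw [h3]
    cases ws with
    | nil => exact absurd rfl hw
    | cons x w =>
      rw [List.map_cons, List.prod_cons, abs_mul]
      have h6 := h5 x (List.mem_cons_self)
      have h7 := h4 w fun y hy => h5 y (List.mem_cons_of_mem _ hy)
      nlinarith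
  exact_mod_cast h6

/-- The combinatorial part of the residue argument. -/
theorem residues {ι : Type} [Fintype ι] (hi : INVO_Stmt) (hdat : DAT_Stmt) (hA : DATA_Stmt)
    (had : ADV_Stmt) (hn : CHNO_Stmt) (m e : ι → ℤ) (ws : ι → List (List ℤ))
    (hN : ∀ i, NF (e i) (ws i)) (hD : ∀ i, DD (e i) (ws i) = 1 ∨ DD (e i) (ws i) = -1)
    (hpos : ∀ i, 2 < (ws i).length → 0 < m i)
    (hm : ∀ x : Tri, x.ok →
      ∑ i, m i * mz (tr0 (e i) (ws i)) (trs (e i) (ws i)) x =
        ∑ i, m i * mz (tr0 (e i) (ws i)) (trs (e i) (ws i)) x.inv) :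
    ∀ i, (ws i).length ≤ 2 := by
  classical
  by_contra hc
  push Not at hc
  obtain ⟨i1, hi1⟩ := hc
  obtain ⟨i0, hi0, hmax⟩ := Finset.exists_max_image
    (Finset.univ.filter fun i => 2 < (ws i).length) (fun i => (tr0 (e i) (ws i)).ht)
    ⟨i1, by simpa using hi1⟩
  rw [Finset.mem_filter] at hi0
  set x := tr0 (e i0) (ws i0) with hx
  have hok : x.ok := (hdat (e i0) (ws i0) (hN i0)).ok0
  have hlen : ∀ i, (trs (e i) (ws i)).length = (ws i).length := fun i => by simp [trs]
  have hne : ∀ i, 2 < (ws i).length → ws i ≠ [] := by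
    intro i h h'
    rw [h'] at h
    simp at h
  have hht : 2 ≤ x.ht := ht_tr0 hn hA had (hN i0) (hD i0) (hne i0 hi0.2)
  have hinv : x.inv.ht ≤ 1 / 2 := by
    have h1 := (hi x hok).2.2.2.2.2.2
    rw [h1]
    unfold Tri.ht at hht
    have h2 : (1 : ℚ) ≤ x.1 := by
      have h3 : x.1 ≠ 0 := by
        intro h3
        have := hok.1
        rw [h3] at this
        exact absurd this (by decide)
      exact_mod_cast Nat.one_le_iff_ne_zero.2 h3
    have h3 : 2 * (x.1 : ℚ) ≤ |x.2.2| := by
      rwa [le_div_iff₀ (by linarith)] at hht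
    have h4 : (2 : ℚ) ≤ |x.2.2| * x.1 := by nlinarith
    exact one_div_le_one_div_of_le (by norm_num) h4
  have hterm : ∀ i, m i * (mz (tr0 (e i) (ws i)) (trs (e i) (ws i)) x -
      mz (tr0 (e i) (ws i)) (trs (e i) (ws i)) x.inv) ≤ 0 := by
    intro i
    by_cases h : 2 < (ws i).length
    · have h1 : x ∉ trs (e i) (ws i) := by
        intro h1
        have h2 := (hdat (e i) (ws i) (hN i)).lt x h1
        have h3 := hmax i (by simpa using h)
        exact absurd (lt_of_lt_of_le h2 h3) (lt_irrefl _)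
      have h2 : x.inv ≠ tr0 (e i) (ws i) := by
        intro h2
        have h3 := ht_tr0 hn hA had (hN i) (hD i) (hne i h)
        rw [← h2] at h3
        linarith
      refine mul_nonpos_of_nonneg_of_nonpos (hpos i h).le ?_
      unfold mz
      rw [List.count_eq_zero_of_not_mem h1, if_neg h2, hlen i]
      have h4 : (0 : ℤ) ≤ ((trs (e i) (ws i)).count x.inv : ℤ) := by positivity
      have h5 : (2 : ℤ) < ((ws i).length : ℤ) := by exact_mod_cast h
      split_ifs <;> push_cast <;> linarith
    · have h1 := (hdat (e i) (ws i) (hN i)).small (by rw [hlen i]; omega) x hok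
      rw [h1, sub_self, mul_zero]
  have hlt : m i0 * (mz (tr0 (e i0) (ws i0)) (trs (e i0) (ws i0)) x -
      mz (tr0 (e i0) (ws i0)) (trs (e i0) (ws i0)) x.inv) < 0 := by
    have h1 : x ∉ trs (e i0) (ws i0) := by
      intro h1
      exact absurd ((hdat (e i0) (ws i0) (hN i0)).lt x h1) (lt_irrefl _)
    have h2 : x.inv ≠ tr0 (e i0) (ws i0) := by
      intro h2
      rw [← hx] at h2
      rw [h2] at hinv
      linarith
    refine mul_neg_of_pos_of_neg (hpos i0 hi0.2) ?_
    unfold mz
    rw [List.count_eq_zero_of_not_mem h1, if_neg h2, if_pos hx, hlen i0]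
    have h4 : (0 : ℤ) ≤ ((trs (e i0) (ws i0)).count x.inv : ℤ) := by positivity
    have h5 : (2 : ℤ) < ((ws i0).length : ℤ) := by exact_mod_cast hi0.2
    push_cast
    linarith
  have h1 := Finset.sum_lt_sum (s := Finset.univ) (fun i _ => hterm i)
    ⟨i0, Finset.mem_univ _, hlt⟩
  have h2 : ∑ i, m i * (mz (tr0 (e i) (ws i)) (trs (e i) (ws i)) x -
      mz (tr0 (e i) (ws i)) (trs (e i) (ws i)) x.inv) = 0 := by
    simp only [mul_sub]
    rw [Finset.sum_sub_distrib, hm x hok, sub_self]
  rw [h2, Finset.sum_const_zero] at h1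
  exact absurd h1 (lt_irrefl _)

/-- **Weighted families.** `e i`, `ws i` are the data of Montesinos knots in normal form with
determinant `±1`, `m i` are integers, positive if there are more than two tangles. If for all large
`s` the weighted sum of the logarithmic derivatives is independent of the root of unity of order
`2^s`, then every knot of the family has at most two tangles. -/
theorem fam_le_two {ι : Type} [Fintype ι] (m e : ι → ℤ) (ws : ι → List (List ℤ))
    (hN : ∀ i, NF (e i) (ws i)) (hD : ∀ i, DD (e i) (ws i) = 1 ∨ DD (e i) (ws i) = -1)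
    (hpos : ∀ i, 2 < (ws i).length → 0 < m i)
    (hE : ∃ s0 : ℕ, ∀ s : ℕ, s0 ≤ s → ∃ C : ℂ, ∀ κ : ZMod (2 ^ s), IsUnit κ →
      ∑ i, (m i : ℂ) * LG (2 ^ s) (e i) (ws i) (κ * (DD (e i) (ws i) : ZMod (2 ^ s))) = C) :
    ∀ i, (ws i).length ≤ 2 := by
  have hn := chno
  have had := adv hn
  have hi := invo
  have hs : SITE_Stmt := siteB
  have hz := sitz hs
  have hdA := data hs had hn
  have hdB := datb hi hs had hdA
  have hdC := datc hi hs had hn hdA
  have hdD := datd hi hs had hdA hdB
  have hdat := dat hdA hdB hdC hdD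
  have hlimt := limt had (lims chn (limq (tail cls)) cscl) cscl
  have hodd : ∀ o, Odd (DD (e o) (ws o)) := fun o => (had.2.2.2.2 _ _ (hN o)).1
  have hsq : ∀ o, DD (e o) (ws o) * DD (e o) (ws o) = 1 := by
    intro o
    rcases hD o with h | h <;> rw [h] <;> norm_num
  have hphi := phi_sum fout hlimt m e ws (fun o => DD (e o) (ws o)) hN hodd hE
  obtain ⟨h1, -⟩ := meas_sum had hs hz (rec_thm hi pf tval (tinv hi)) m e ws
    (fun o => DD (e o) (ws o)) 1 odd_one hN hsq hphi
  exact residues hi hdat hdA had hn m e ws hN hD hpos h1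

/-- **Families of nodes.** `e i`, `ws i` are the data of Montesinos knots in normal form with
determinant `±1`. If for all large `s` the sum over `i` of the differences of the logarithmic
derivatives of the knot and of the unknot is independent of the root of unity of order `2^s`, then
every knot of the family has at most two tangles. -/
theorem nodes_le_two {ι : Type} [Fintype ι] (e : ι → ℤ) (ws : ι → List (List ℤ))
    (hN : ∀ i, NF (e i) (ws i)) (hD : ∀ i, DD (e i) (ws i) = 1 ∨ DD (e i) (ws i) = -1)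
    (hE : ∃ s0 : ℕ, ∀ s : ℕ, s0 ≤ s → ∃ C : ℂ, ∀ κ : ZMod (2 ^ s), IsUnit κ →
      ∑ i, (LG (2 ^ s) (e i) (ws i) (κ * (DD (e i) (ws i) : ZMod (2 ^ s))) -
        LG (2 ^ s) 1 [] κ) = C) :
    ∀ i, (ws i).length ≤ 2 := by
  classical
  set m' : Option ι → ℤ := fun o => o.elim (-(Fintype.card ι : ℤ)) fun _ => 1 with hm'
  set e' : Option ι → ℤ := fun o => o.elim 1 e with he'
  set ws' : Option ι → List (List ℤ) := fun o => o.elim [] ws with hws'
  have hN' : ∀ o, NF (e' o) (ws' o) := by
    rintro (_ | i)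
    · exact nf_unknot
    · exact hN i
  have hDD : ∀ o, DD (e' o) (ws' o) = 1 ∨ DD (e' o) (ws' o) = -1 := by
    rintro (_ | i)
    · exact Or.inl dd_unknot
    · exact hD i
  have h := fam_le_two m' e' ws' hN' hDD (by
    rintro (_ | i) hlen
    · simp [hws'] at hlen
    · exact one_pos) (by
    obtain ⟨s0, h0⟩ := hE
    refine ⟨s0, fun s hs => ?_⟩
    obtain ⟨C, hC⟩ := h0 s hs
    refine ⟨C, fun κ hκ => ?_⟩
    rw [← hC κ hκ, Fintype.sum_option]
    simp only [hm', he', hws', Option.elim_none, Option.elim_some, Int.cast_neg,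
      Int.cast_natCast, Int.cast_one, one_mul, dd_unknot, mul_one]
    rw [Finset.sum_sub_distrib, Finset.sum_const, Finset.card_univ, nsmul_eq_mul]
    ring)
  exact fun i => h (some i)

end Pool.Agent.UAD
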